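import Pool.Agent.helper6.EV.Spec

/-! RE: the Laplace transform of `∫ (ψ(t) - t)`. -/

set_option autoImplicit false

namespace Pool.Agent.EV

open N1f72dd46 Filter MeasureTheory Complex Metric Pool.Agent.helper6.LD

open scoped Topology

lemma RE_int (a b : ℝ) : IntervalIntegrable (fun t : ℝ => Chebyshev.psi t - t) volume a b :=
  (Chebyshev.psi_mono.intervalIntegrable).sub intervalIntegral.intervalIntegrable_id

lemma RE_cont : Continuous Rx := by
  show Continuous (fun x => ∫ t in (1 : ℝ)..x, (Chebyshev.psi t - t))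
  exact intervalIntegral.continuous_primitive RE_int 1

lemma RE_gb (t : ℝ) (ht : 0 ≤ t) : |Chebyshev.psi t - t| ≤ 6 * t := by
  have h1 := Chebyshev.psi_nonneg t
  have h2 := Chebyshev.psi_le_const_mul_self ht
  have h3 : Real.log 4 ≤ 2 := by
    have h4 : Real.log 4 = 2 * Real.log 2 := by
      rw [show (4 : ℝ) = 2 ^ (2 : ℕ) by norm_num, Real.log_pow]
      norm_num
    have := Real.log_two_lt_d9
    rw [h4]
    linarith
  have h5 : Real.log 4 * t ≤ 2 * t := mul_le_mul_of_nonneg_right h3 ht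
  rw [abs_le]
  constructor <;> nlinarith

lemma RE_bd (x : ℝ) (hx : 1 ≤ x) : |Rx x| ≤ 6 * x ^ 2 := by
  have h := intervalIntegral.norm_integral_le_of_norm_le_const
    (f := fun t : ℝ => Chebyshev.psi t - t) (a := 1) (b := x) (C := 6 * x) (by
      intro t ht
      rw [Set.uIoc_of_le hx] at ht
      have h0 : (0 : ℝ) ≤ t := by linarith [ht.1]
      rw [Real.norm_eq_abs]
      have := RE_gb t h0
      have h2 := ht.2
      linarith)
  rw [Real.norm_eq_abs] at h
  have h2 : |x - 1| = x - 1 := abs_of_nonneg (by linarith)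
  rw [h2] at h
  unfold Rx
  nlinarith

lemma RE_right (x : ℝ) (hx : 0 ≤ x) :
    ContinuousWithinAt (fun t : ℝ => Chebyshev.psi t - t) (Set.Ioi x) x := by
  have hpsi : ContinuousWithinAt Chebyshev.psi (Set.Ioi x) x := by
    have hev : ∀ᶠ t in 𝓝[>] x, Chebyshev.psi t = Chebyshev.psi x := by
      have hlt : x < (⌊x⌋₊ : ℝ) + 1 := Nat.lt_floor_add_one x
      filter_upwards [Ioo_mem_nhdsGT hlt] with t ht
      have h1 : ⌊t⌋₊ = ⌊x⌋₊ := by
        rw [Nat.floor_eq_iff (by linarith [ht.1])]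
        exact ⟨(Nat.floor_le hx).trans ht.1.le, ht.2⟩
      rw [Chebyshev.psi_eq_psi_coe_floor t, Chebyshev.psi_eq_psi_coe_floor x, h1]
    exact tendsto_const_nhds.congr' (hev.mono fun t ht => ht.symm)
  exact hpsi.sub continuousWithinAt_id

lemma RE_deriv (x : ℝ) (hx : 0 ≤ x) :
    HasDerivWithinAt Rx (Chebyshev.psi x - x) (Set.Ioi x) x := by
  have hm : Measurable (fun t : ℝ => Chebyshev.psi t - t) :=
    (Chebyshev.psi_mono.measurable).sub measurable_id
  have h := intervalIntegral.integral_hasDerivWithinAt_right (a := 1) (b := x) (RE_int 1 x)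
    (s := Set.Ici x) (t := Set.Ioi x) (hm.stronglyMeasurable.stronglyMeasurableAtFilter)
    (RE_right x hx)
  exact h.mono Set.Ioi_subset_Ici_self

lemma RE_meas_cpow (c : ℂ) :
    AEStronglyMeasurable (fun t : ℝ => (t : ℂ) ^ c) (volume.restrict (Set.Ioi (1 : ℝ))) := by
  refine ContinuousOn.aestronglyMeasurable ?_ measurableSet_Ioi
  intro t ht
  have ht0 : (0 : ℝ) < t := lt_trans one_pos ht
  exact (Complex.continuousAt_ofReal_cpow_const t c (Or.inr ht0.ne')).continuousWithinAt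

lemma RE_integrable (f : ℝ → ℝ) (hf : Measurable f) (C : ℝ) (m : ℝ) (c : ℂ)
    (hb : ∀ t, 1 < t → |f t| ≤ C * t ^ m) (hc : m + c.re < -1) :
    IntegrableOn (fun t : ℝ => (f t : ℂ) * (t : ℂ) ^ c) (Set.Ioi 1) := by
  have h1 : IntegrableOn (fun t : ℝ => C * t ^ (m + c.re)) (Set.Ioi 1) :=
    (integrableOn_Ioi_rpow_of_lt hc one_pos).const_mul C
  refine Integrable.mono' h1 ?_ ?_
  · exact (Complex.measurable_ofReal.comp hf).aestronglyMeasurable.mul (RE_meas_cpow c)
  · refine (ae_restrict_mem measurableSet_Ioi).mono fun t ht => ?_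
    have ht1 : (1 : ℝ) < t := ht
    have ht0 : (0 : ℝ) < t := lt_trans one_pos ht1
    rw [norm_mul, Complex.norm_cpow_eq_rpow_re_of_pos ht0, Complex.norm_real, Real.norm_eq_abs,
      Real.rpow_add ht0]
    have h3 := hb t ht1
    have h4 : 0 ≤ t ^ c.re := (Real.rpow_pos_of_pos ht0 _).le
    calc |f t| * t ^ c.re ≤ (C * t ^ m) * t ^ c.re := mul_le_mul_of_nonneg_right h3 h4
      _ = C * (t ^ m * t ^ c.re) := by ring

lemma RE_psi_integral (s : ℂ) (hs : 1 < s.re) :
    ∫ t in Set.Ioi (1 : ℝ), (Chebyshev.psi t : ℂ) * (t : ℂ) ^ (-(s + 1)) =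
      -(deriv riemannZeta s / riemannZeta s) / s := by
  have hs0 : s ≠ 0 := by
    intro h
    rw [h] at hs
    simp at hs
    linarith
  have hsum : ∀ n : ℕ, ∑ k ∈ Finset.Icc 1 n, ArithmeticFunction.vonMangoldt k =
      Chebyshev.psi n := by
    intro n
    rw [Chebyshev.psi, Nat.floor_natCast]
    refine Finset.sum_congr ?_ fun _ _ => rfl
    ext k
    simp only [Finset.mem_Icc, Finset.mem_Ioc]
    omega
  have hO : (fun n : ℕ => ∑ k ∈ Finset.Icc 1 n, ArithmeticFunction.vonMangoldt k) =O[atTop]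
      fun n : ℕ => (n : ℝ) ^ (1 : ℝ) := by
    refine Asymptotics.IsBigO.of_bound (Real.log 4 + 4) (Eventually.of_forall fun n => ?_)
    rw [hsum n, Real.rpow_one, Real.norm_eq_abs, Real.norm_eq_abs,
      abs_of_nonneg (Chebyshev.psi_nonneg _), abs_of_nonneg (Nat.cast_nonneg n)]
    exact Chebyshev.psi_le_const_mul_self (Nat.cast_nonneg n)
  have h := LSeries_eq_mul_integral_of_nonneg (fun n => ArithmeticFunction.vonMangoldt n)
    zero_le_one hs hO (fun n => ArithmeticFunction.vonMangoldt_nonneg)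
  have h2 := ArithmeticFunction.LSeries_vonMangoldt_eq_deriv_riemannZeta_div hs
  rw [h2] at h
  have h3 : ∀ t : ℝ, (∑ k ∈ Finset.Icc 1 ⌊t⌋₊, (ArithmeticFunction.vonMangoldt k : ℂ)) =
      (Chebyshev.psi t : ℂ) := by
    intro t
    rw [Chebyshev.psi_eq_psi_coe_floor t, ← hsum]
    push_cast
    rfl
  simp only [h3] at h
  rw [eq_div_iff hs0, mul_comm, ← h]
  ring

theorem RE : RE_stmt := by
  refine ⟨RE_cont.continuousOn, ⟨6, fun x hx => RE_bd x hx⟩, ?_⟩
  intro s hs
  have hs0 : s ≠ 0 := by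
    intro h
    rw [h] at hs
    simp at hs
    linarith
  have hs1 : s ≠ 1 := by
    intro h
    rw [h] at hs
    simp at hs
  have hs1' : s - 1 ≠ 0 := sub_ne_zero.mpr hs1
  have hsp : s + 1 ≠ 0 := by
    intro h
    have h1 : (s + 1).re = 0 := by rw [h]; simp
    rw [Complex.add_re, Complex.one_re] at h1
    linarith
  have hre1 : (-(s + 1)).re = -s.re - 1 := by
    simp [Complex.neg_re, Complex.add_re]
    ring
  have hre2 : (-(s + 2)).re = -s.re - 2 := by
    simp [Complex.neg_re, Complex.add_re]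
    ring
  -- integrability
  have hI1 : IntegrableOn (fun t : ℝ => ((Chebyshev.psi t - t : ℝ) : ℂ) * (t : ℂ) ^ (-(s + 1)))
      (Set.Ioi 1) := by
    refine RE_integrable (fun t => Chebyshev.psi t - t)
      ((Chebyshev.psi_mono.measurable).sub measurable_id) 6 1 _ ?_ ?_
    · intro t ht
      rw [Real.rpow_one]
      exact RE_gb t (by linarith)
    · rw [hre1]; linarith
  have hI2 : IntegrableOn (fun t : ℝ => (Rx t : ℂ) * (t : ℂ) ^ (-(s + 2))) (Set.Ioi 1) := by
    refine RE_integrable Rx RE_cont.measurable 6 2 _ ?_ ?_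
    · intro t ht
      have := RE_bd t ht.le
      rw [show (2 : ℝ) = ((2 : ℕ) : ℝ) by norm_num, Real.rpow_natCast]
      exact this
    · rw [hre2]; linarith
  have hI3 : IntegrableOn (fun t : ℝ => (Chebyshev.psi t : ℂ) * (t : ℂ) ^ (-(s + 1)))
      (Set.Ioi 1) := by
    refine RE_integrable Chebyshev.psi Chebyshev.psi_mono.measurable 7 1 _ ?_ ?_
    · intro t ht
      rw [Real.rpow_one]
      have := RE_gb t (by linarith)
      have h2 := abs_le.mp this
      rw [abs_of_nonneg (Chebyshev.psi_nonneg t)]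
      linarith [h2.2]
    · rw [hre1]; linarith
  have hI4 : IntegrableOn (fun t : ℝ => ((t : ℝ) : ℂ) * (t : ℂ) ^ (-(s + 1)))
      (Set.Ioi 1) := by
    refine RE_integrable (fun t => t) measurable_id 1 1 _ ?_ ?_
    · intro t ht
      rw [Real.rpow_one, abs_of_pos (by linarith)]
      linarith
    · rw [hre1]; linarith
  -- integration by parts
  have hparts : ∀ X : ℝ, 1 ≤ X → ∫ t in (1 : ℝ)..X,
      (((Chebyshev.psi t - t : ℝ) : ℂ) * (t : ℂ) ^ (-(s + 1)) +
        (Rx t : ℂ) * (-(s + 1) * (t : ℂ) ^ (-(s + 2)))) = (Rx X : ℂ) * (X : ℂ) ^ (-(s + 1)) := by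
    intro X hX
    have hR1 : Rx 1 = 0 := by unfold Rx; simp
    have huIcc : Set.uIcc (1 : ℝ) X = Set.Icc 1 X := Set.uIcc_of_le hX
    have hpos : ∀ t ∈ Set.Icc (1 : ℝ) X, t ≠ 0 := fun t ht => by linarith [ht.1]
    have hcont : ∀ c : ℂ, ContinuousOn (fun t : ℝ => (t : ℂ) ^ c) (Set.uIcc 1 X) := by
      intro c t ht
      rw [huIcc] at ht
      exact (Complex.continuousAt_ofReal_cpow_const t c (Or.inr (hpos t ht))).continuousWithinAt
    have h := intervalIntegral.integral_deriv_mul_eq_sub_of_hasDeriv_right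
      (a := 1) (b := X) (u := fun t : ℝ => (Rx t : ℂ)) (v := fun t : ℝ => (t : ℂ) ^ (-(s + 1)))
      (u' := fun t : ℝ => ((Chebyshev.psi t - t : ℝ) : ℂ))
      (v' := fun t : ℝ => -(s + 1) * (t : ℂ) ^ (-(s + 2)))
      (Complex.continuous_ofReal.comp RE_cont).continuousOn (hcont _) ?_ ?_ ?_ ?_
    · rw [h, hR1]
      simp
    · intro t ht
      rw [min_eq_left hX, max_eq_right hX] at ht
      exact (RE_deriv t (by linarith [ht.1])).ofReal_comp
    · intro t ht
      rw [min_eq_left hX, max_eq_right hX] at ht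
      have ht0 : (0 : ℝ) < t := by linarith [ht.1]
      have h1 : HasDerivAt (fun z : ℂ => z ^ (-(s + 1))) (-(s + 1) * (t : ℂ) ^ (-(s + 1) - 1) * 1)
          (t : ℂ) :=
        (hasDerivAt_id (t : ℂ)).cpow_const (Or.inl (by simpa using ht0))
      have h2 := h1.comp_ofReal
      have h3 : -(s + 1) * (t : ℂ) ^ (-(s + 1) - 1) * 1 = -(s + 1) * (t : ℂ) ^ (-(s + 2)) := by
        rw [mul_one]
        congr 2
        ring
      rw [h3] at h2
      exact h2.hasDerivWithinAt
    · exact ⟨Integrable.ofReal (RE_int 1 X).1, Integrable.ofReal (RE_int 1 X).2⟩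
    · exact ((hcont _).const_mul _).intervalIntegrable
  have hlim1 : Tendsto (fun X : ℝ => ∫ t in (1 : ℝ)..X,
      (((Chebyshev.psi t - t : ℝ) : ℂ) * (t : ℂ) ^ (-(s + 1)) +
        (Rx t : ℂ) * (-(s + 1) * (t : ℂ) ^ (-(s + 2))))) atTop
      (𝓝 (∫ t in Set.Ioi (1 : ℝ), (((Chebyshev.psi t - t : ℝ) : ℂ) * (t : ℂ) ^ (-(s + 1)) +
        (Rx t : ℂ) * (-(s + 1) * (t : ℂ) ^ (-(s + 2)))))) := by
    refine intervalIntegral_tendsto_integral_Ioi 1 ?_ tendsto_id
    refine hI1.add ?_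
    have h5 : IntegrableOn (fun t : ℝ => -(s + 1) * ((Rx t : ℂ) * (t : ℂ) ^ (-(s + 2))))
        (Set.Ioi 1) := hI2.const_mul _
    refine h5.congr_fun (fun t _ => ?_) measurableSet_Ioi
    ring
  have hlim2 : Tendsto (fun X : ℝ => ∫ t in (1 : ℝ)..X,
      (((Chebyshev.psi t - t : ℝ) : ℂ) * (t : ℂ) ^ (-(s + 1)) +
        (Rx t : ℂ) * (-(s + 1) * (t : ℂ) ^ (-(s + 2))))) atTop (𝓝 0) := by
    have hz : Tendsto (fun X : ℝ => 6 * X ^ (-(s.re - 1))) atTop (𝓝 (6 * 0)) :=
      (tendsto_rpow_neg_atTop (by linarith : 0 < s.re - 1)).const_mul 6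
    rw [mul_zero] at hz
    refine squeeze_zero_norm' ?_ hz
    filter_upwards [eventually_ge_atTop (1 : ℝ)] with X hX
    rw [hparts X hX, norm_mul, Complex.norm_cpow_eq_rpow_re_of_pos (by linarith), hre1,
      Complex.norm_real, Real.norm_eq_abs]
    have h6 := RE_bd X hX
    have hX0 : (0 : ℝ) < X := by linarith
    have h7 : 0 ≤ X ^ (-s.re - 1) := (Real.rpow_pos_of_pos hX0 _).le
    calc |Rx X| * X ^ (-s.re - 1) ≤ (6 * X ^ 2) * X ^ (-s.re - 1) :=
          mul_le_mul_of_nonneg_right h6 h7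
      _ = 6 * X ^ (-(s.re - 1)) := by
          rw [mul_assoc, ← Real.rpow_natCast X 2, ← Real.rpow_add hX0]
          congr 2
          push_cast
          ring
  have hz := tendsto_nhds_unique hlim1 hlim2
  have h8 : ∫ t in Set.Ioi (1 : ℝ), ((Chebyshev.psi t - t : ℝ) : ℂ) * (t : ℂ) ^ (-(s + 1)) =
      (s + 1) * ∫ t in Set.Ioi (1 : ℝ), (Rx t : ℂ) * (t : ℂ) ^ (-(s + 2)) := by
    have h5 : IntegrableOn (fun t : ℝ => (Rx t : ℂ) * (-(s + 1) * (t : ℂ) ^ (-(s + 2))))
        (Set.Ioi 1) := by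
      have h5' : IntegrableOn (fun t : ℝ => -(s + 1) * ((Rx t : ℂ) * (t : ℂ) ^ (-(s + 2))))
          (Set.Ioi 1) := hI2.const_mul _
      refine h5'.congr_fun (fun t _ => ?_) measurableSet_Ioi
      ring
    rw [integral_add hI1 h5] at hz
    have h9 : ∫ t in Set.Ioi (1 : ℝ), (Rx t : ℂ) * (-(s + 1) * (t : ℂ) ^ (-(s + 2))) =
        -(s + 1) * ∫ t in Set.Ioi (1 : ℝ), (Rx t : ℂ) * (t : ℂ) ^ (-(s + 2)) := by
      rw [← integral_const_mul]
      refine integral_congr_ae (Eventually.of_forall fun t => ?_)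
      simp only
      ring
    rw [h9] at hz
    linear_combination hz
  -- the values
  have h10 : ∫ t in Set.Ioi (1 : ℝ), ((Chebyshev.psi t - t : ℝ) : ℂ) * (t : ℂ) ^ (-(s + 1)) =
      -(deriv riemannZeta s / riemannZeta s) / s - 1 / (s - 1) := by
    have h11 : ∫ t in Set.Ioi (1 : ℝ), ((t : ℝ) : ℂ) * (t : ℂ) ^ (-(s + 1)) = 1 / (s - 1) := by
      have h12 : ∫ t in Set.Ioi (1 : ℝ), ((t : ℝ) : ℂ) * (t : ℂ) ^ (-(s + 1)) =
          ∫ t in Set.Ioi (1 : ℝ), (t : ℂ) ^ (-s) := by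
        refine setIntegral_congr_fun measurableSet_Ioi fun t ht => ?_
        have ht0 : (t : ℂ) ≠ 0 := by
          have : (0 : ℝ) < t := lt_trans one_pos ht
          exact_mod_cast this.ne'
        nth_rewrite 1 [← Complex.cpow_one (t : ℂ)]
        rw [← Complex.cpow_add _ _ ht0]
        congr 1
        ring
      rw [h12, integral_Ioi_cpow_of_lt (by simpa using hs) one_pos]
      simp only [Complex.ofReal_one, Complex.one_cpow]
      rw [show -s + 1 = -(s - 1) by ring, div_neg, neg_div, neg_neg]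
    have h13 : ∫ t in Set.Ioi (1 : ℝ), ((Chebyshev.psi t - t : ℝ) : ℂ) * (t : ℂ) ^ (-(s + 1)) =
        (∫ t in Set.Ioi (1 : ℝ), (Chebyshev.psi t : ℂ) * (t : ℂ) ^ (-(s + 1))) -
        ∫ t in Set.Ioi (1 : ℝ), ((t : ℝ) : ℂ) * (t : ℂ) ^ (-(s + 1)) := by
      rw [← integral_sub hI3 hI4]
      refine integral_congr_ae (Eventually.of_forall fun t => ?_)
      simp only
      push_cast
      ring
    rw [h13, RE_psi_integral s hs, h11]
  -- change of variables
  have h14 : ∫ u in Set.Ioi (0 : ℝ), (Rx (Real.exp u) : ℂ) * Complex.exp (-(s + 1) * u) =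
      ∫ t in Set.Ioi (1 : ℝ), (Rx t : ℂ) * (t : ℂ) ^ (-(s + 2)) := by
    have himg : Real.exp '' Set.Ioi (0 : ℝ) = Set.Ioi 1 := by
      ext x
      constructor
      · rintro ⟨u, hu, rfl⟩
        exact Real.one_lt_exp_iff.mpr hu
      · intro hx
        have hx1 : (1 : ℝ) < x := hx
        exact ⟨Real.log x, Real.log_pos hx1, Real.exp_log (by linarith)⟩
    have h15 := integral_image_eq_integral_abs_deriv_smul (s := Set.Ioi (0 : ℝ))
      (f := Real.exp) (f' := Real.exp) measurableSet_Ioi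
      (fun x _ => (Real.hasDerivAt_exp x).hasDerivWithinAt) (Real.exp_injective.injOn)
      (fun t : ℝ => (Rx t : ℂ) * (t : ℂ) ^ (-(s + 2)))
    rw [himg] at h15
    rw [h15]
    refine setIntegral_congr_fun measurableSet_Ioi fun u _ => ?_
    rw [abs_of_pos (Real.exp_pos u), Complex.real_smul]
    have h16 : ((Real.exp u : ℝ) : ℂ) ^ (-(s + 2)) = Complex.exp (-(s + 2) * u) := by
      rw [Complex.cpow_def_of_ne_zero (by exact_mod_cast (Real.exp_pos u).ne'),
        ← Complex.ofReal_log (Real.exp_pos u).le, Real.log_exp]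
      congr 1
      ring
    rw [h16, Complex.ofReal_exp]
    have h17 : Complex.exp (-(s + 1) * u) = Complex.exp u * Complex.exp (-(s + 2) * u) := by
      rw [← Complex.exp_add]
      congr 1
      ring
    rw [h17]
    ring
  rw [h14]
  -- the function `Ph`
  have hz0 : riemannZeta s ≠ 0 := riemannZeta_ne_zero_of_one_lt_re hs
  have hZt : Zt s = (s - 1) * riemannZeta s := by
    unfold Zt
    rw [Function.update_of_ne hs1]
  have hdZt : deriv Zt s = riemannZeta s + (s - 1) * deriv riemannZeta s := by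
    have hev : Zt =ᶠ[𝓝 s] fun z => (z - 1) * riemannZeta z := by
      filter_upwards [isOpen_ne.mem_nhds hs1] with z hz
      unfold Zt
      rw [Function.update_of_ne hz]
    rw [hev.deriv_eq]
    have h1 : HasDerivAt (fun z : ℂ => z - 1) 1 s := (hasDerivAt_id s).sub_const 1
    have h2 : HasDerivAt riemannZeta (deriv riemannZeta s) s :=
      (differentiableAt_riemannZeta hs1).hasDerivAt
    have h3 := h1.mul h2
    have h4 := h3.deriv
    rw [show (fun z : ℂ => (z - 1) * riemannZeta z) = (fun z : ℂ => z - 1) * riemannZeta from rfl]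
    rw [h4]
    ring
  have h18 : (∫ t in Set.Ioi (1 : ℝ), (Rx t : ℂ) * (t : ℂ) ^ (-(s + 2))) =
      (-(deriv riemannZeta s / riemannZeta s) / s - 1 / (s - 1)) / (s + 1) := by
    rw [← h10, h8]
    field_simp
  rw [h18, Ph, hdZt, hZt]
  field_simp
  ring

end Pool.Agent.EV
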